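import Mathlib

/-! Splitting a finite set into blocks of size `k` and one rest block. -/

namespace Pool.Agent.H.MP_3adc02_co.Kt

open Finset

theorem card_div (d k j : ℕ) (hk : 0 < k) :
    ((range d).filter (fun i => i / k = j)).card =
      if j < d / k then k else if j = d / k then d % k else 0 := by
  have h1 : (range d).filter (fun i => i / k = j) = Finset.Ico (j * k) (min ((j + 1) * k) d) := by
    ext i
    simp only [Finset.mem_filter, Finset.mem_range, Finset.mem_Ico, lt_min_iff]
    constructor
    · rintro ⟨h1, h2⟩
      rw [Nat.div_eq_iff hk] at h2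
      have h3 : (j + 1) * k = j * k + k := by ring
      refine ⟨?_, ?_, h1⟩ <;> omega
    · rintro ⟨h1, h2, h3⟩
      refine ⟨h3, ?_⟩
      have h3 : (j + 1) * k = j * k + k := by ring
      rw [Nat.div_eq_iff hk]
      omega
  rw [h1, Nat.card_Ico]
  have h2 : k * (d / k) + d % k = d := Nat.div_add_mod d k
  have h3 : (j + 1) * k = j * k + k := by ring
  have h4 : d % k < k := Nat.mod_lt _ hk
  by_cases hj : j < d / k
  · rw [if_pos hj]
    have h5 : (j + 1) * k ≤ (d / k) * k := Nat.mul_le_mul_right k hj
    have h6 : (d / k) * k = k * (d / k) := Nat.mul_comm _ _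
    rw [min_eq_left (by omega)]
    omega
  · rw [if_neg hj]
    by_cases hj2 : j = d / k
    · rw [if_pos hj2]
      have h6 : j * k = k * (d / k) := by rw [hj2, Nat.mul_comm]
      rw [min_eq_right (by omega)]
      omega
    · rw [if_neg hj2]
      have h5 : (d / k + 1) * k ≤ j * k := Nat.mul_le_mul_right k (by omega)
      have h6 : (d / k + 1) * k = k * (d / k) + k := by ring
      have h7 : min ((j + 1) * k) d ≤ d := min_le_right _ _
      omega

open scoped Classical in
theorem chunk {E : Type*} (S sp : Finset E) (hsp : sp ⊆ S) (k : ℕ) (hk : 0 < k)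
    (hsk : sp.card ≤ k) :
    ∃ idx : E → ℕ, (∀ j, (S.filter (fun e => idx e = j)).card =
      if j < S.card / k then k else if j = S.card / k then S.card % k else 0) ∧
      (∀ e ∈ S, idx e ≤ S.card / k) ∧ ∀ e ∈ sp, idx e = 0 := by
  let L : List E := sp.toList ++ (S \ sp).toList
  have hmem : ∀ e, e ∈ L ↔ e ∈ S := by
    intro e
    simp only [L, List.mem_append, Finset.mem_toList, Finset.mem_sdiff]
    constructor
    · rintro (h | h)
      · exact hsp h
      · exact h.1
    · intro h
      by_cases h2 : e ∈ sp
      · exact Or.inl h2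
      · exact Or.inr ⟨h, h2⟩
  have hlen : L.length = S.card := by
    simp only [L, List.length_append, Finset.length_toList]
    have := Finset.card_sdiff_add_card_eq_card hsp
    omega
  have hlt : ∀ e ∈ S, L.idxOf e < S.card := by
    intro e he
    rw [← hlen]
    exact List.idxOf_lt_length_iff.2 ((hmem e).2 he)
  have hinj : Set.InjOn (fun e => L.idxOf e) (S : Set E) := by
    intro a ha b hb hab
    exact (List.idxOf_inj ((hmem a).2 ha)).1 hab
  have himg : S.image (fun e => L.idxOf e) = range S.card := by
    apply Finset.eq_of_subset_of_card_le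
    · intro i hi
      obtain ⟨e, he, rfl⟩ := Finset.mem_image.1 hi
      exact Finset.mem_range.2 (hlt e he)
    · rw [Finset.card_range, Finset.card_image_of_injOn hinj]
  refine ⟨fun e => L.idxOf e / k, fun j => ?_, fun e he => ?_, fun e he => ?_⟩
  · rw [← card_div S.card k j hk, ← himg, Finset.filter_image, Finset.card_image_of_injOn]
    exact hinj.mono (fun e he => (Finset.mem_filter.1 he).1)
  · exact Nat.div_le_div_right (hlt e he).le
  · apply Nat.div_eq_of_lt
    have h1 : L.idxOf e = sp.toList.idxOf e :=
      List.idxOf_append_of_mem (Finset.mem_toList.2 he)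
    have h2 : sp.toList.idxOf e < sp.toList.length :=
      List.idxOf_lt_length_iff.2 (Finset.mem_toList.2 he)
    rw [Finset.length_toList] at h2
    show L.idxOf e < k
    omega

end Pool.Agent.H.MP_3adc02_co.Kt
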