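import Pool.Agent.H.MP_3adc02_co.kt.Konig
import Pool.Agent.H.MP_3adc02_co.kt.Chunk

/-! Colouring two bipartite multigraphs with the same degrees simultaneously. -/

namespace Pool.Agent.H.MP_3adc02_co.Kt

open Finset

open scoped Classical in
theorem chunks {E V : Type*} [Fintype E] (p : E → V) (sp : V → Finset E)
    (hsp : ∀ v, ∀ e ∈ sp v, p e = v) (k : ℕ) (hk : 0 < k) (hsk : ∀ v, (sp v).card ≤ k) :
    ∃ idx : E → ℕ,
      (∀ v j, (univ.filter (fun e => p e = v ∧ idx e = j)).card =
        if j < (univ.filter (fun e => p e = v)).card / k then k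
        else if j = (univ.filter (fun e => p e = v)).card / k then
          (univ.filter (fun e => p e = v)).card % k else 0) ∧
      (∀ e, idx e ≤ (univ.filter (fun e' => p e' = p e)).card / k) ∧
      ∀ v, ∀ e ∈ sp v, idx e = 0 := by
  have h := fun v => chunk (univ.filter (fun e => p e = v)) (sp v)
    (fun e he => Finset.mem_filter.2 ⟨Finset.mem_univ _, hsp v e he⟩) k hk (hsk v)
  choose f hf1 hf2 hf3 using h
  refine ⟨fun e => f (p e) e, fun v j => ?_, fun e => ?_, fun v e he => ?_⟩
  · rw [← hf1 v j, Finset.filter_filter]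
    congr 1
    ext e
    simp only [Finset.mem_filter, Finset.mem_univ, true_and]
    constructor
    · rintro ⟨h1, h2⟩
      exact ⟨h1, h1 ▸ h2⟩
    · rintro ⟨h1, h2⟩
      refine ⟨h1, ?_⟩
      rw [h1]
      exact h2
  · exact hf2 (p e) e (Finset.mem_filter.2 ⟨Finset.mem_univ _, rfl⟩)
  · show f (p e) e = 0
    rw [hsp v e he]
    exact hf3 v e he

theorem card_sum3 {E X : Type*} [Fintype E] [Fintype X] (n : X → ℕ)
    (Q : (E ⊕ E) ⊕ (Σ x : X, Fin (n x)) → Prop) [DecidablePred Q] :
    (univ.filter Q).card = (univ.filter (fun e => Q (Sum.inl (Sum.inl e)))).card +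
      (univ.filter (fun e => Q (Sum.inl (Sum.inr e)))).card +
      ∑ x, (univ.filter (fun i => Q (Sum.inr ⟨x, i⟩))).card := by
  rw [Finset.card_filter, Fintype.sum_sum_type, Fintype.sum_sum_type, Finset.card_filter,
    Finset.card_filter, Fintype.sum_sigma]
  congr 1
  apply Finset.sum_congr rfl
  intro x _
  rw [Finset.card_filter]

theorem link_count {X : Type*} [Fintype X] [DecidableEq X] (d : X → ℕ) (k : ℕ) (x : X) (j : ℕ) :
    ∑ y, (univ.filter (fun _ : Fin (k - d y % k) => ((y, d y / k) : X × ℕ) = (x, j))).card =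
      if j = d x / k then k - d x % k else 0 := by
  rw [Finset.sum_eq_single x]
  · by_cases h : j = d x / k
    · rw [if_pos h, Finset.filter_true_of_mem, Finset.card_univ, Fintype.card_fin]
      intro i _
      rw [h]
    · rw [if_neg h, Finset.filter_false_of_mem, Finset.card_empty]
      intro i _ h2
      exact h (Prod.ext_iff.1 h2).2.symm
  · intro y _ hy
    rw [Finset.filter_false_of_mem, Finset.card_empty]
    intro i _ h2
    exact hy (Prod.ext_iff.1 h2).1
  · intro h
    exact absurd (Finset.mem_univ _) h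

/-- the degree table: `true` for tails, `false` for heads -/
def dg {V : Type*} (dT dH : V → ℕ) (x : Bool × V) : ℕ := if x.1 then dT x.2 else dH x.2

/-- first ends -/
def eL {E V : Type*} (k : ℕ) (d : Bool × V → ℕ) (t h' : E → V) (iT iG : E → ℕ) :
    (E ⊕ E) ⊕ (Σ x : Bool × V, Fin (k - d x % k)) → (Bool × V) × ℕ
  | Sum.inl (Sum.inl e) => ((true, t e), iT e)
  | Sum.inl (Sum.inr e) => ((false, h' e), iG e)
  | Sum.inr ⟨x, _⟩ => (x, d x / k)

open scoped Classical in
theorem eL_deg {E V : Type*} [Fintype E] [Fintype V] (k : ℕ) (hk : 0 < k) (dT dH : V → ℕ)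
    (t h' : E → V) (iT iG : E → ℕ)
    (h1 : ∀ v j, (univ.filter (fun e => t e = v ∧ iT e = j)).card =
        if j < dT v / k then k else if j = dT v / k then dT v % k else 0)
    (h2 : ∀ v j, (univ.filter (fun e => h' e = v ∧ iG e = j)).card =
        if j < dH v / k then k else if j = dH v / k then dH v % k else 0)
    (x : Bool × V) (j : ℕ) (hj : j ≤ dg dT dH x / k) :
    (univ.filter (fun a => eL k (dg dT dH) t h' iT iG a = (x, j))).card = k := by
  rw [card_sum3]
  have h3 := link_count (dg dT dH) k x j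
  have h4 : ∑ y, (univ.filter (fun i : Fin (k - dg dT dH y % k) =>
      eL k (dg dT dH) t h' iT iG (Sum.inr ⟨y, i⟩) = (x, j))).card =
      if j = dg dT dH x / k then k - dg dT dH x % k else 0 := h3
  rw [h4]
  obtain ⟨b, v⟩ := x
  have hmod := Nat.mod_lt (dg dT dH (b, v)) hk
  cases b with
  | true =>
    have h5 : (univ.filter (fun e => eL k (dg dT dH) t h' iT iG (Sum.inl (Sum.inl e)) =
        ((true, v), j))).card = (univ.filter (fun e => t e = v ∧ iT e = j)).card := by
      congr 1
      ext e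
      simp only [eL, Finset.mem_filter, Finset.mem_univ, true_and, Prod.mk.injEq]
    have h6 : (univ.filter (fun e => eL k (dg dT dH) t h' iT iG (Sum.inl (Sum.inr e)) =
        ((true, v), j))).card = 0 := by
      rw [Finset.card_eq_zero, Finset.filter_eq_empty_iff]
      intro e _ h7
      have h8 := (Prod.ext_iff.1 (Prod.ext_iff.1 h7).1).1
      simp [eL] at h8
    rw [h5, h1, h6]
    have h9 : dg dT dH (true, v) = dT v := by simp [dg]
    rw [h9] at hj hmod ⊢
    by_cases h10 : j = dT v / k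
    · have h11 : ¬ j < dT v / k := by omega
      rw [if_neg h11, if_pos h10, if_pos h10]
      omega
    · have h11 : j < dT v / k := by omega
      rw [if_pos h11, if_neg h10]
      omega
  | false =>
    have h5 : (univ.filter (fun e => eL k (dg dT dH) t h' iT iG (Sum.inl (Sum.inr e)) =
        ((false, v), j))).card = (univ.filter (fun e => h' e = v ∧ iG e = j)).card := by
      congr 1
      ext e
      simp only [eL, Finset.mem_filter, Finset.mem_univ, true_and, Prod.mk.injEq]
    have h6 : (univ.filter (fun e => eL k (dg dT dH) t h' iT iG (Sum.inl (Sum.inl e)) =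
        ((false, v), j))).card = 0 := by
      rw [Finset.card_eq_zero, Finset.filter_eq_empty_iff]
      intro e _ h7
      have h8 := (Prod.ext_iff.1 (Prod.ext_iff.1 h7).1).1
      simp [eL] at h8
    rw [h5, h2, h6]
    have h9 : dg dT dH (false, v) = dH v := by simp [dg]
    rw [h9] at hj hmod ⊢
    by_cases h10 : j = dH v / k
    · have h11 : ¬ j < dH v / k := by omega
      rw [if_neg h11, if_pos h10, if_pos h10]
      omega
    · have h11 : j < dH v / k := by omega
      rw [if_pos h11, if_neg h10]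
      omega

/-- second ends -/
def eR {E V : Type*} (k : ℕ) (d : Bool × V → ℕ) (t h : E → V) (iK iH : E → ℕ) :
    (E ⊕ E) ⊕ (Σ x : Bool × V, Fin (k - d x % k)) → (Bool × V) × ℕ
  | Sum.inl (Sum.inl e) => ((false, h e), iH e)
  | Sum.inl (Sum.inr e) => ((true, t e), iK e)
  | Sum.inr ⟨x, _⟩ => (x, d x / k)

open scoped Classical in
theorem eR_deg {E V : Type*} [Fintype E] [Fintype V] (k : ℕ) (hk : 0 < k) (dT dH : V → ℕ)
    (t h : E → V) (iK iH : E → ℕ)
    (h1 : ∀ v j, (univ.filter (fun e => t e = v ∧ iK e = j)).card =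
        if j < dT v / k then k else if j = dT v / k then dT v % k else 0)
    (h2 : ∀ v j, (univ.filter (fun e => h e = v ∧ iH e = j)).card =
        if j < dH v / k then k else if j = dH v / k then dH v % k else 0)
    (x : Bool × V) (j : ℕ) (hj : j ≤ dg dT dH x / k) :
    (univ.filter (fun a => eR k (dg dT dH) t h iK iH a = (x, j))).card = k := by
  have h3 := eL_deg k hk dT dH t h iK iH h1 h2 x j hj
  rw [card_sum3] at h3 ⊢
  refine Eq.trans ?_ h3
  rw [Nat.add_comm (univ.filter (fun e => eL k (dg dT dH) t h iK iH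
    (Sum.inl (Sum.inl e)) = (x, j))).card]
  rfl

theorem konig2 {A L : Type*} [DecidableEq L] (l r : A → L) (NL NR : Finset L) (k : ℕ)
    (S : Finset A) (hl : ∀ e ∈ S, l e ∈ NL) (hr : ∀ e ∈ S, r e ∈ NR)
    (hl2 : ∀ x ∈ NL, (S.filter (fun e => l e = x)).card = k)
    (hr2 : ∀ x ∈ NR, (S.filter (fun e => r e = x)).card = k) :
    ∃ c : A → ℕ, (∀ e ∈ S, c e < k) ∧
      (∀ i < k, ∀ x ∈ NL, (S.filter (fun e => c e = i ∧ l e = x)).card = 1) ∧
      (∀ i < k, ∀ x ∈ NR, (S.filter (fun e => c e = i ∧ r e = x)).card = 1) := by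
  obtain ⟨c, h1, h2, h3⟩ := konig l r NL NR k S hl hr
    (fun x hx => by convert hl2 x hx) (fun x hx => by convert hr2 x hx)
  exact ⟨c, h1, fun i hi x hx => by convert h2 i hi x hx, fun i hi x hx => by convert h3 i hi x hx⟩

open scoped Classical in
theorem col {E V : Type*} [Fintype E] [Fintype V] (t h h' : E → V)
    (hh : ∀ v, (univ.filter (fun e => h e = v)).card = (univ.filter (fun e => h' e = v)).card)
    (k : ℕ) (hk : 0 < k) (sT sH sK : V → Finset E)
    (hT1 : ∀ v, ∀ e ∈ sT v, t e = v) (hT2 : ∀ v, (sT v).card ≤ k)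
    (hH1 : ∀ v, ∀ e ∈ sH v, h e = v) (hH2 : ∀ v, (sH v).card ≤ k)
    (hK1 : ∀ v, ∀ e ∈ sK v, t e = v) (hK2 : ∀ v, (sK v).card ≤ k) :
    ∃ cF cK : E → ℕ, (∀ e, cF e < k) ∧ (∀ e, cK e < k) ∧
      (∀ i < k, ∀ v, (univ.filter (fun e => cF e = i ∧ t e = v)).card =
        (univ.filter (fun e => cK e = i ∧ t e = v)).card) ∧
      (∀ i < k, ∀ v, (univ.filter (fun e => cF e = i ∧ h e = v)).card =
        (univ.filter (fun e => cK e = i ∧ h' e = v)).card) ∧
      (∀ v, Set.InjOn cF (sT v : Set E)) ∧ (∀ v, Set.InjOn cF (sH v : Set E)) ∧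
      ∀ v, Set.InjOn cK (sK v : Set E) := by
  obtain ⟨iT, hiT1, hiT2, hiT3⟩ := chunks t sT hT1 k hk hT2
  obtain ⟨iH, hiH1, hiH2, hiH3⟩ := chunks h sH hH1 k hk hH2
  obtain ⟨iK, hiK1, hiK2, hiK3⟩ := chunks t sK hK1 k hk hK2
  obtain ⟨iG, hiG1, hiG2, -⟩ := chunks h' (fun _ => ∅) (fun v e he => by simp at he) k hk
    (fun v => by simp)
  set dT : V → ℕ := fun v => (univ.filter (fun e => t e = v)).card with hdT
  set dH : V → ℕ := fun v => (univ.filter (fun e => h e = v)).card with hdH
  have hG1 : ∀ v j, (univ.filter (fun e => h' e = v ∧ iG e = j)).card =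
        if j < dH v / k then k else if j = dH v / k then dH v % k else 0 := by
    intro v j
    rw [hiG1 v j, hdH]
    simp only [hh v]
  let NN : Finset ((Bool × V) × ℕ) :=
    univ.biUnion fun x : Bool × V => (range (dg dT dH x / k + 1)).image (fun j => (x, j))
  have hNN : ∀ x j, (x, j) ∈ NN ↔ j ≤ dg dT dH x / k := by
    intro x j
    simp only [NN, Finset.mem_biUnion, Finset.mem_univ, true_and, Finset.mem_image,
      Finset.mem_range, Prod.mk.injEq]
    constructor
    · rintro ⟨y, i, h1, rfl, rfl⟩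
      omega
    · intro h1
      exact ⟨x, j, by omega, rfl, rfl⟩
  have hl : ∀ a ∈ (univ : Finset ((E ⊕ E) ⊕ (Σ x : Bool × V, Fin (k - dg dT dH x % k)))),
      eL k (dg dT dH) t h' iT iG a ∈ NN := by
    intro a _
    rcases a with (e | e) | ⟨x, i⟩
    · simp only [eL]
      rw [hNN]
      exact hiT2 e
    · simp only [eL]
      rw [hNN]
      have := hiG2 e
      rw [← hh] at this
      exact this
    · simp only [eL]
      rw [hNN]
  have hr : ∀ a ∈ (univ : Finset ((E ⊕ E) ⊕ (Σ x : Bool × V, Fin (k - dg dT dH x % k)))),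
      eR k (dg dT dH) t h iK iH a ∈ NN := by
    intro a _
    rcases a with (e | e) | ⟨x, i⟩
    · simp only [eR]
      rw [hNN]
      exact hiH2 e
    · simp only [eR]
      rw [hNN]
      exact hiK2 e
    · simp only [eR]
      rw [hNN]
  obtain ⟨c, hc1, hc2, hc3⟩ := konig2 (eL k (dg dT dH) t h' iT iG) (eR k (dg dT dH) t h iK iH)
    NN NN k univ hl hr
    (fun x hx => by
      obtain ⟨x, j⟩ := x
      exact eL_deg k hk dT dH t h' iT iG hiT1 hG1 x j ((hNN x j).1 hx))
    (fun x hx => by
      obtain ⟨x, j⟩ := x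
      exact eR_deg k hk dT dH t h iK iH hiK1 hiH1 x j ((hNN x j).1 hx))
  have hsum : ∀ (g : (E ⊕ E) ⊕ (Σ x : Bool × V, Fin (k - dg dT dH x % k)) → (Bool × V) × ℕ)
      (_ : ∀ a, g a ∈ NN) (i : ℕ)
      (_ : ∀ y ∈ NN, (univ.filter (fun a => c a = i ∧ g a = y)).card = 1) (x : Bool × V),
      (univ.filter (fun a => c a = i ∧ (g a).1 = x)).card = dg dT dH x / k + 1 := by
    intro g hg i hgi x
    have hmt : ∀ a ∈ univ.filter (fun a => c a = i ∧ (g a).1 = x),
        (g a).2 ∈ range (dg dT dH x / k + 1) := by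
      intro a ha
      rw [Finset.mem_filter] at ha
      have h1 := hg a
      have h2 : g a = (x, (g a).2) := Prod.ext ha.2.2 rfl
      rw [h2, hNN] at h1
      rw [Finset.mem_range]
      omega
    rw [Finset.card_eq_sum_card_fiberwise hmt, Finset.sum_congr rfl (g := fun _ => 1)]
    · simp
    · intro j hj
      rw [Finset.mem_range] at hj
      rw [← hgi (x, j) ((hNN x j).2 (by omega)), Finset.filter_filter]
      congr 1
      ext a
      simp only [Finset.mem_filter, Finset.mem_univ, true_and]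
      constructor
      · rintro ⟨⟨h1, h2⟩, h3⟩
        exact ⟨h1, Prod.ext h2 h3⟩
      · rintro ⟨h1, h2⟩
        exact ⟨⟨h1, (Prod.ext_iff.1 h2).1⟩, (Prod.ext_iff.1 h2).2⟩
  have hL := fun i hi => hsum (eL k (dg dT dH) t h' iT iG) (fun a => hl a (Finset.mem_univ _)) i
    (fun y hy => hc2 i hi y hy)
  have hR := fun i hi => hsum (eR k (dg dT dH) t h iK iH) (fun a => hr a (Finset.mem_univ _)) i
    (fun y hy => hc3 i hi y hy)
  have hinj : ∀ (g : (E ⊕ E) ⊕ (Σ x : Bool × V, Fin (k - dg dT dH x % k)) → (Bool × V) × ℕ)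
      (_ : ∀ i < k, ∀ y ∈ NN, (univ.filter (fun a => c a = i ∧ g a = y)).card = 1)
      (a b : (E ⊕ E) ⊕ (Σ x : Bool × V, Fin (k - dg dT dH x % k))) (y : (Bool × V) × ℕ),
      y ∈ NN → g a = y → g b = y → c a = c b → a = b := by
    intro g hg a b y hy ha hb hab
    have h1 := hg (c a) (hc1 a (Finset.mem_univ _)) y hy
    exact Finset.card_le_one.1 h1.le a (by simp [ha]) b (by simp [hb, hab])
  refine ⟨fun e => c (Sum.inl (Sum.inl e)), fun e => c (Sum.inl (Sum.inr e)),
    fun e => hc1 _ (Finset.mem_univ _), fun e => hc1 _ (Finset.mem_univ _), ?_, ?_, ?_, ?_, ?_⟩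
  · intro i hi v
    have h1 := hL i hi (true, v)
    have h2 := hR i hi (true, v)
    rw [card_sum3] at h1 h2
    have a1 : (univ.filter (fun e => c (Sum.inl (Sum.inl e)) = i ∧
        (eL k (dg dT dH) t h' iT iG (Sum.inl (Sum.inl e))).1 = (true, v))).card =
        (univ.filter (fun e => c (Sum.inl (Sum.inl e)) = i ∧ t e = v)).card := by
      congr 1
      ext e
      simp [eL]
    have a2 : (univ.filter (fun e => c (Sum.inl (Sum.inr e)) = i ∧
        (eL k (dg dT dH) t h' iT iG (Sum.inl (Sum.inr e))).1 = (true, v))).card = 0 := by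
      rw [Finset.card_eq_zero, Finset.filter_eq_empty_iff]
      intro e _
      simp [eL]
    have a3 : (univ.filter (fun e => c (Sum.inl (Sum.inl e)) = i ∧
        (eR k (dg dT dH) t h iK iH (Sum.inl (Sum.inl e))).1 = (true, v))).card = 0 := by
      rw [Finset.card_eq_zero, Finset.filter_eq_empty_iff]
      intro e _
      simp [eR]
    have a4 : (univ.filter (fun e => c (Sum.inl (Sum.inr e)) = i ∧
        (eR k (dg dT dH) t h iK iH (Sum.inl (Sum.inr e))).1 = (true, v))).card =
        (univ.filter (fun e => c (Sum.inl (Sum.inr e)) = i ∧ t e = v)).card := by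
      congr 1
      ext e
      simp [eR]
    have a5 : (∑ x, (univ.filter (fun j => c (Sum.inr ⟨x, j⟩) = i ∧
        (eL k (dg dT dH) t h' iT iG (Sum.inr ⟨x, j⟩)).1 = (true, v))).card) =
        ∑ x, (univ.filter (fun j => c (Sum.inr ⟨x, j⟩) = i ∧
        (eR k (dg dT dH) t h iK iH (Sum.inr ⟨x, j⟩)).1 = (true, v))).card := rfl
    rw [a1, a2, a5] at h1
    rw [a3, a4] at h2
    show (univ.filter (fun e => c (Sum.inl (Sum.inl e)) = i ∧ t e = v)).card =
      (univ.filter (fun e => c (Sum.inl (Sum.inr e)) = i ∧ t e = v)).card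
    omega
  · intro i hi v
    have h1 := hL i hi (false, v)
    have h2 := hR i hi (false, v)
    rw [card_sum3] at h1 h2
    have a1 : (univ.filter (fun e => c (Sum.inl (Sum.inl e)) = i ∧
        (eR k (dg dT dH) t h iK iH (Sum.inl (Sum.inl e))).1 = (false, v))).card =
        (univ.filter (fun e => c (Sum.inl (Sum.inl e)) = i ∧ h e = v)).card := by
      congr 1
      ext e
      simp [eR]
    have a2 : (univ.filter (fun e => c (Sum.inl (Sum.inr e)) = i ∧
        (eR k (dg dT dH) t h iK iH (Sum.inl (Sum.inr e))).1 = (false, v))).card = 0 := by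
      rw [Finset.card_eq_zero, Finset.filter_eq_empty_iff]
      intro e _
      simp [eR]
    have a3 : (univ.filter (fun e => c (Sum.inl (Sum.inl e)) = i ∧
        (eL k (dg dT dH) t h' iT iG (Sum.inl (Sum.inl e))).1 = (false, v))).card = 0 := by
      rw [Finset.card_eq_zero, Finset.filter_eq_empty_iff]
      intro e _
      simp [eL]
    have a4 : (univ.filter (fun e => c (Sum.inl (Sum.inr e)) = i ∧
        (eL k (dg dT dH) t h' iT iG (Sum.inl (Sum.inr e))).1 = (false, v))).card =
        (univ.filter (fun e => c (Sum.inl (Sum.inr e)) = i ∧ h' e = v)).card := by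
      congr 1
      ext e
      simp [eL]
    have a5 : (∑ x, (univ.filter (fun j => c (Sum.inr ⟨x, j⟩) = i ∧
        (eL k (dg dT dH) t h' iT iG (Sum.inr ⟨x, j⟩)).1 = (false, v))).card) =
        ∑ x, (univ.filter (fun j => c (Sum.inr ⟨x, j⟩) = i ∧
        (eR k (dg dT dH) t h iK iH (Sum.inr ⟨x, j⟩)).1 = (false, v))).card := rfl
    rw [a3, a4, a5] at h1
    rw [a1, a2] at h2
    show (univ.filter (fun e => c (Sum.inl (Sum.inl e)) = i ∧ h e = v)).card =
      (univ.filter (fun e => c (Sum.inl (Sum.inr e)) = i ∧ h' e = v)).card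
    omega
  · intro v e he e' he' hee
    have h1 := hinj (eL k (dg dT dH) t h' iT iG) hc2 (Sum.inl (Sum.inl e)) (Sum.inl (Sum.inl e')) ((true, v), 0)
      ((hNN _ _).2 (Nat.zero_le _)) (by simp only [eL, hT1 v e he, hiT3 v e he])
      (by simp only [eL, hT1 v e' he', hiT3 v e' he']) hee
    exact Sum.inl_injective (Sum.inl_injective h1)
  · intro v e he e' he' hee
    have h1 := hinj (eR k (dg dT dH) t h iK iH) hc3 (Sum.inl (Sum.inl e)) (Sum.inl (Sum.inl e')) ((false, v), 0)
      ((hNN _ _).2 (Nat.zero_le _)) (by simp only [eR, hH1 v e he, hiH3 v e he])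
      (by simp only [eR, hH1 v e' he', hiH3 v e' he']) hee
    exact Sum.inl_injective (Sum.inl_injective h1)
  · intro v e he e' he' hee
    have h1 := hinj (eR k (dg dT dH) t h iK iH) hc3 (Sum.inl (Sum.inr e)) (Sum.inl (Sum.inr e')) ((true, v), 0)
      ((hNN _ _).2 (Nat.zero_le _)) (by simp only [eR, hK1 v e he, hiK3 v e he])
      (by simp only [eR, hK1 v e' he', hiK3 v e' he']) hee
    exact Sum.inr_injective (Sum.inl_injective h1)

end Pool.Agent.H.MP_3adc02_co.Kt
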