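import Pool.Agent.H.MP_3adc02_co.kt.Col

/-! The splitting theorem for a finite preorder. -/

namespace Pool.Agent.H.MP_3adc02_co.Kt

open Finset

open scoped Classical in
theorem hallK {E V : Type*} [Fintype E] (R : V → V → Prop) (hr : ∀ v, R v v)
    (htr : ∀ u v w, R u v → R v w → R u w) (t h : E → V) (A B : Finset E)
    (hAB : A.card = B.card)
    (hall : ∀ Y : V → Prop, (∀ u v, R u v → Y u → Y v) →
      (univ.filter (fun e => e ∉ A ∧ Y (t e))).card ≤
        (univ.filter (fun e => e ∉ B ∧ Y (h e))).card) :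
    ∃ p : E → E, Function.Bijective p ∧ (∀ e ∈ A, p e ∈ B) ∧ ∀ e, e ∉ A → R (t e) (h (p e)) := by
  have key : ∀ Z : Finset {e // e ∉ A}, Z.card ≤
      (Z.biUnion (fun e => univ.filter (fun e' => e' ∉ B ∧ R (t e.1) (h e')))).card := by
    intro Z
    obtain ⟨Y, hY⟩ : ∃ Y : V → Prop, ∀ v, Y v ↔ ∃ z ∈ Z, R (t z.1) v := ⟨_, fun _ => Iff.rfl⟩
    have h1 := hall Y (fun u v huv hu => by
      rw [hY] at hu ⊢
      obtain ⟨z, hz, hzu⟩ := hu
      exact ⟨z, hz, htr _ _ _ hzu huv⟩)
    refine le_trans ?_ (le_trans h1 ?_)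
    · rw [← Finset.card_image_of_injective Z Subtype.val_injective]
      apply Finset.card_le_card
      intro e he
      obtain ⟨z, hz, rfl⟩ := Finset.mem_image.1 he
      exact Finset.mem_filter.2 ⟨Finset.mem_univ _, z.2, (hY _).2 ⟨z, hz, hr _⟩⟩
    · apply Finset.card_le_card
      intro e he
      obtain ⟨-, h3, h5⟩ := Finset.mem_filter.1 he
      obtain ⟨z, hz, h4⟩ := (hY _).1 h5
      exact Finset.mem_biUnion.2 ⟨z, hz, Finset.mem_filter.2 ⟨Finset.mem_univ _, h3, h4⟩⟩
  obtain ⟨f, hf1, hf2⟩ := (Finset.all_card_le_biUnion_card_iff_exists_injective _).1 key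
  have hf3 : ∀ x, f x ∉ B ∧ R (t x.1) (h (f x)) := fun x => (Finset.mem_filter.1 (hf2 x)).2
  let s : {e // e ∈ A} ≃ {e // e ∈ B} := Finset.equivOfCardEq hAB
  let p : E → E := fun e => if he : e ∈ A then (s ⟨e, he⟩).1 else f ⟨e, he⟩
  have hp1 : ∀ e (he : e ∈ A), p e = (s ⟨e, he⟩).1 := fun e he => dif_pos he
  have hp2 : ∀ e (he : e ∉ A), p e = f ⟨e, he⟩ := fun e he => dif_neg he
  have hinj : Function.Injective p := by
    intro a b hab
    by_cases ha : a ∈ A
    · by_cases hb : b ∈ A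
      · rw [hp1 a ha, hp1 b hb] at hab
        have h1 := s.injective (Subtype.ext hab)
        exact congrArg Subtype.val h1
      · rw [hp1 a ha, hp2 b hb] at hab
        exact absurd (hab ▸ (s ⟨a, ha⟩).2) (hf3 ⟨b, hb⟩).1
    · by_cases hb : b ∈ A
      · rw [hp2 a ha, hp1 b hb] at hab
        exact absurd (hab ▸ (s ⟨b, hb⟩).2) (hf3 ⟨a, ha⟩).1
      · rw [hp2 a ha, hp2 b hb] at hab
        exact congrArg Subtype.val (hf1 hab)
  refine ⟨p, Finite.injective_iff_bijective.1 hinj, fun e he => ?_, fun e he => ?_⟩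
  · rw [hp1 e he]
    exact (s ⟨e, he⟩).2
  · rw [hp2 e he]
    exact (hf3 ⟨e, he⟩).2

open scoped Classical in
theorem exists_min {V : Type*} [Fintype V] (R : V → V → Prop) (hr : ∀ v, R v v)
    (htr : ∀ u v w, R u v → R v w → R u w) (x : V) :
    ∃ u, R u x ∧ ∀ w, R w u → R u w := by
  obtain ⟨u, hu, hmin⟩ := Finset.exists_min_image (univ.filter (fun u => R u x))
    (fun u => (univ.filter (fun w => R w u)).card) ⟨x, by simp [hr]⟩
  rw [Finset.mem_filter] at hu
  refine ⟨u, hu.2, fun w hw => ?_⟩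
  by_contra hno
  have h1 := hmin w (Finset.mem_filter.2 ⟨Finset.mem_univ _, htr _ _ _ hw hu.2⟩)
  have h2 : (univ.filter (fun y => R y w)) ⊂ univ.filter (fun y => R y u) := by
    rw [Finset.ssubset_iff_of_subset]
    · exact ⟨u, Finset.mem_filter.2 ⟨Finset.mem_univ _, hr u⟩,
        fun h => hno (Finset.mem_filter.1 h).2⟩
    · intro y hy
      exact Finset.mem_filter.2 ⟨Finset.mem_univ _, htr _ _ _ (Finset.mem_filter.1 hy).2 hw⟩
  exact absurd (Finset.card_lt_card h2) (by omega)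

/-- `k` elements with different colours below `k` have all colours. -/
theorem all_colours {E : Type*} (S : Finset E) (k : ℕ) (hS : S.card = k) (c : E → ℕ)
    (hc : ∀ e, c e < k) (hinj : Set.InjOn c (S : Set E)) (i : ℕ) (hi : i < k) :
    ∃ e ∈ S, c e = i := by
  classical
  have h1 : S.image c = range k := by
    apply Finset.eq_of_subset_of_card_le
    · intro j hj
      obtain ⟨e, -, rfl⟩ := Finset.mem_image.1 hj
      exact Finset.mem_range.2 (hc e)
    · rw [Finset.card_range, Finset.card_image_of_injOn hinj, hS]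
  have h2 : i ∈ S.image c := by
    rw [h1]
    exact Finset.mem_range.2 hi
  obtain ⟨e, he, h3⟩ := Finset.mem_image.1 h2
  exact ⟨e, he, h3⟩

end Pool.Agent.H.MP_3adc02_co.Kt
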