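import Pool.Agent.H.MP_3adc02_co.kt.Main

/-! The splitting theorem for digraphs. -/

namespace Pool.Agent.H.MP_3adc02_co.Kt

open Finset

theorem card_sub {α : Type*} (J : Finset α) (P : α → Prop) [DecidablePred P]
    [Fintype {x // x ∈ J}] [DecidablePred (fun e : {x // x ∈ J} => P e.1)] :
    (univ.filter (fun e : {x // x ∈ J} => P e.1)).card = (J.filter P).card := by
  classical
  rw [← Finset.card_image_of_injective _ Subtype.val_injective]
  congr 1
  ext e
  simp only [Finset.mem_image, Finset.mem_filter, Finset.mem_univ, true_and, Subtype.exists,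
    exists_and_right, exists_eq_right]
  constructor
  · rintro ⟨h1, h2⟩
    exact ⟨h1, h2⟩
  · rintro ⟨h1, h2⟩
    exact ⟨h1, h2⟩

open scoped Classical in
theorem digraph {n m : ℕ} (tail head : Fin m → Fin n) (k : ℕ) (hk : 0 < k) (J : Finset (Fin m))
    (hJ : ∀ U : Finset (Fin n), U.Nonempty → U ≠ univ → (∀ e : Fin m, head e ∈ U → tail e ∈ U) →
      k ≤ (J.filter (fun e => tail e ∈ U ∧ head e ∉ U)).card)
    (R : Fin n → Fin n → Prop)
    (hR : ∀ u v, R u v ↔ Relation.ReflTransGen (fun a b => ∃ e, tail e = a ∧ head e = b) u v)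
    (s0 t0 : Fin n)
    (ha : ∀ u, (∀ w, R w u → R u w) →
      k ≤ (J.filter (fun e => R (tail e) u ∧ R s0 (head e))).card)
    (hb : ∀ u, (∀ w, R u w → R w u) →
      k ≤ (J.filter (fun e => R u (head e) ∧ R (tail e) t0)).card) :
    ∃ f : Fin m → Fin k, ∀ C : Finset (Fin k), ∀ U : Finset (Fin n), U.Nonempty → U ≠ univ →
      (∀ e : Fin m, head e ∈ U → tail e ∈ U) →
      C.card ≤ ((J.filter (fun e => f e ∈ C)).filter (fun e => tail e ∈ U ∧ head e ∉ U)).card := by
  have hr : ∀ v, R v v := fun v => (hR v v).2 Relation.ReflTransGen.refl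
  have htr : ∀ u v w, R u v → R v w → R u w := fun u v w h1 h2 =>
    (hR u w).2 (((hR u v).1 h1).trans ((hR v w).1 h2))
  have hth : ∀ e, R (tail e) (head e) := fun e =>
    (hR _ _).2 (Relation.ReflTransGen.single ⟨e, rfl, rfl⟩)
  have hclosed : ∀ U : Finset (Fin n), (∀ e : Fin m, head e ∈ U → tail e ∈ U) →
      ∀ u v, R u v → v ∈ U → u ∈ U := by
    intro U hU u v huv
    have h1 := (hR u v).1 huv
    clear huv
    induction h1 with
    | refl => exact id
    | tail hab hbc ih =>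
      intro hc
      obtain ⟨e, rfl, rfl⟩ := hbc
      exact ih (hU e hc)
  let st : Setoid (Fin n) := ⟨fun u v => R u v ∧ R v u, ⟨fun v => ⟨hr v, hr v⟩,
    fun h => ⟨h.2, h.1⟩, fun h1 h2 => ⟨htr _ _ _ h1.1 h2.1, htr _ _ _ h2.2 h1.2⟩⟩⟩
  let cl : Fin n → Fin n := fun v => Quotient.out (Quotient.mk st v)
  have hcl : ∀ v, R (cl v) v ∧ R v (cl v) := fun v => Quotient.mk_out (s := st) v
  have hcl3 : ∀ u v, R u v → R v u → cl u = cl v := by
    intro u v h1 h2
    have h3 : Quotient.mk st u = Quotient.mk st v := Quotient.sound (s := st) ⟨h1, h2⟩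
    show Quotient.out (Quotient.mk st u) = Quotient.out (Quotient.mk st v)
    rw [h3]
  obtain ⟨c, hc1, hc2⟩ := core (E := {e // e ∈ J}) R hr htr cl (fun v => (hcl v).2)
    (fun v => (hcl v).1) hcl3 (fun e => tail e.1) (fun e => head e.1) (fun e => hth e.1) k hk
    (fun X hX1 hX2 hX3 => by
      have h1 := Nat.le_trans (hJ X hX1 hX2 (fun e he => hX3 _ _ (hth e) he))
        (Nat.le_of_eq (card_sub J (fun e => tail e ∈ X ∧ head e ∉ X)).symm)
      convert h1)
    s0 t0
    (fun u hu => (ha u hu).trans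
      (le_of_eq (card_sub J (fun e => R (tail e) u ∧ R s0 (head e))).symm))
    (fun u hu => (hb u hu).trans
      (le_of_eq (card_sub J (fun e => R u (head e) ∧ R (tail e) t0)).symm))
  refine ⟨fun e => if h : e ∈ J then ⟨c ⟨e, h⟩, hc1 _⟩ else ⟨0, hk⟩, fun C U hU1 hU2 hU3 => ?_⟩
  have hex : ∀ i : Fin k, ∃ e : {e // e ∈ J}, c e = i.1 ∧ tail e.1 ∈ U ∧ head e.1 ∉ U :=
    fun i => hc2 i.1 i.2 U hU1 hU2 (hclosed U hU3)
  choose g hg1 hg2 hg3 using hex
  refine Finset.card_le_card_of_injOn (fun i => (g i).1) (fun i hi => ?_) (fun i _ j _ hij => ?_)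
  · rw [Finset.mem_coe, Finset.mem_filter, Finset.mem_filter]
    refine ⟨⟨(g i).2, ?_⟩, hg2 i, hg3 i⟩
    beta_reduce
    rw [dif_pos (g i).2]
    have h1 : (⟨c ⟨(g i).1, (g i).2⟩, hc1 _⟩ : Fin k) = i := Fin.ext (hg1 i)
    rw [h1]
    exact hi
  · have h1 : g i = g j := Subtype.ext hij
    exact Fin.ext ((hg1 i).symm.trans ((congrArg c h1).trans (hg1 j)))

end Pool.Agent.H.MP_3adc02_co.Kt
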