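import Mathlib

/-! König's theorem: a `k`-regular bipartite multigraph splits into `k` perfect matchings. -/

namespace Pool.Agent.H.MP_3adc02_co.Kt

open Finset

open scoped Classical in
/-- A `(k+1)`-regular bipartite multigraph has a perfect matching. -/
theorem matching {A L : Type*} (l r : A → L) (NL NR : Finset L) (k : ℕ) (S : Finset A)
    (hl : ∀ e ∈ S, l e ∈ NL) (hr : ∀ e ∈ S, r e ∈ NR)
    (hl2 : ∀ x ∈ NL, (S.filter (fun e => l e = x)).card = k + 1)
    (hr2 : ∀ x ∈ NR, (S.filter (fun e => r e = x)).card = k + 1) :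
    ∃ M ⊆ S, (∀ x ∈ NL, (M.filter (fun e => l e = x)).card = 1) ∧
      (∀ x ∈ NR, (M.filter (fun e => r e = x)).card = 1) := by
  have hcard : NL.card = NR.card := by
    have h1 : S.card = NL.card * (k + 1) := by
      rw [Finset.card_eq_sum_card_fiberwise (f := l) (t := NL) (fun e he => hl e he)]
      rw [Finset.sum_congr rfl hl2, Finset.sum_const, smul_eq_mul]
    have h2 : S.card = NR.card * (k + 1) := by
      rw [Finset.card_eq_sum_card_fiberwise (f := r) (t := NR) (fun e he => hr e he)]
      rw [Finset.sum_congr rfl hr2, Finset.sum_const, smul_eq_mul]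
    exact Nat.eq_of_mul_eq_mul_right (Nat.succ_pos k) (h1.symm.trans h2)
  let t : {x // x ∈ NL} → Finset L := fun x => (S.filter (fun e => l e = x.1)).image r
  have hall : ∀ B : Finset {x // x ∈ NL}, B.card ≤ (B.biUnion t).card := by
    intro B
    have h1 : (S.filter (fun e => l e ∈ B.image Subtype.val)).card = B.card * (k + 1) := by
      have hmt : ∀ e ∈ S.filter (fun e => l e ∈ B.image Subtype.val), l e ∈ B.image Subtype.val :=
        fun e he => (Finset.mem_filter.1 he).2
      rw [Finset.card_eq_sum_card_fiberwise hmt]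
      rw [Finset.sum_congr rfl (g := fun _ => k + 1), Finset.sum_const, smul_eq_mul,
        Finset.card_image_of_injective _ Subtype.val_injective]
      intro x hx
      rw [← hl2 x ?_]
      · congr 1
        ext e
        simp only [Finset.mem_filter]
        constructor
        · rintro ⟨⟨h2, h3⟩, h4⟩
          exact ⟨h2, h4⟩
        · rintro ⟨h2, h4⟩
          exact ⟨⟨h2, h4 ▸ hx⟩, h4⟩
      · obtain ⟨y, hy, rfl⟩ := Finset.mem_image.1 hx
        exact y.2
    have h2 : (S.filter (fun e => l e ∈ B.image Subtype.val)).card ≤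
        (B.biUnion t).card * (k + 1) := by
      have hmt : ∀ e ∈ S.filter (fun e => l e ∈ B.image Subtype.val), r e ∈ B.biUnion t := by
        intro e he
        obtain ⟨h3, h4⟩ := Finset.mem_filter.1 he
        obtain ⟨y, hy, hy2⟩ := Finset.mem_image.1 h4
        rw [Finset.mem_biUnion]
        exact ⟨y, hy, Finset.mem_image.2 ⟨e, Finset.mem_filter.2 ⟨h3, hy2.symm⟩, rfl⟩⟩
      rw [Finset.card_eq_sum_card_fiberwise hmt, ← smul_eq_mul, ← Finset.sum_const]
      apply Finset.sum_le_sum
      intro x hx
      rw [Finset.mem_biUnion] at hx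
      obtain ⟨y, hy, hy2⟩ := hx
      obtain ⟨e, he, rfl⟩ := Finset.mem_image.1 hy2
      rw [← hr2 (r e) (hr e (Finset.mem_filter.1 he).1)]
      apply Finset.card_le_card
      intro e' he'
      simp only [Finset.mem_filter] at he' ⊢
      exact ⟨he'.1.1, he'.2⟩
    rw [h1] at h2
    exact Nat.le_of_mul_le_mul_right h2 (Nat.succ_pos k)
  obtain ⟨f, hf1, hf2⟩ := (Finset.all_card_le_biUnion_card_iff_exists_injective t).1 hall
  have hex : ∀ x : {x // x ∈ NL}, ∃ e ∈ S, l e = x.1 ∧ r e = f x := by
    intro x
    obtain ⟨e, he, he2⟩ := Finset.mem_image.1 (hf2 x)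
    rw [Finset.mem_filter] at he
    exact ⟨e, he.1, he.2, he2⟩
  choose g hg1 hg2 hg3 using hex
  refine ⟨Finset.univ.image g, ?_, ?_, ?_⟩
  · intro e he
    obtain ⟨x, -, rfl⟩ := Finset.mem_image.1 he
    exact hg1 x
  · intro x hx
    rw [Finset.card_eq_one]
    refine ⟨g ⟨x, hx⟩, ?_⟩
    ext e
    simp only [Finset.mem_filter, Finset.mem_image, Finset.mem_univ, true_and,
      Finset.mem_singleton]
    constructor
    · rintro ⟨⟨y, rfl⟩, hy⟩
      have : y = ⟨x, hx⟩ := Subtype.ext ((hg2 y).symm.trans hy)
      rw [this]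
    · rintro rfl
      exact ⟨⟨_, rfl⟩, hg2 _⟩
  · intro y hy
    have himg : Finset.univ.image f = NR := by
      apply Finset.eq_of_subset_of_card_le
      · intro z hz
        obtain ⟨x, -, rfl⟩ := Finset.mem_image.1 hz
        rw [← hg3 x]
        exact hr _ (hg1 x)
      · rw [Finset.card_image_of_injective _ hf1, Finset.card_univ, Fintype.card_coe, hcard]
    rw [← himg] at hy
    obtain ⟨x, -, rfl⟩ := Finset.mem_image.1 hy
    rw [Finset.card_eq_one]
    refine ⟨g x, ?_⟩
    ext e
    simp only [Finset.mem_filter, Finset.mem_image, Finset.mem_univ, true_and,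
      Finset.mem_singleton]
    constructor
    · rintro ⟨⟨z, rfl⟩, hz⟩
      have : z = x := hf1 ((hg3 z).symm.trans hz)
      rw [this]
    · rintro rfl
      exact ⟨⟨_, rfl⟩, hg3 _⟩

open scoped Classical in
/-- König: a `k`-regular bipartite multigraph (edges `S`, nodes `NL`, `NR`) has an edge colouring
with `k` colours in which every node sees every colour exactly once. -/
theorem konig {A L : Type*} (l r : A → L) (NL NR : Finset L) :
    ∀ (k : ℕ) (S : Finset A), (∀ e ∈ S, l e ∈ NL) → (∀ e ∈ S, r e ∈ NR) →
    (∀ x ∈ NL, (S.filter (fun e => l e = x)).card = k) →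
    (∀ x ∈ NR, (S.filter (fun e => r e = x)).card = k) →
    ∃ c : A → ℕ, (∀ e ∈ S, c e < k) ∧
      (∀ i < k, ∀ x ∈ NL, (S.filter (fun e => c e = i ∧ l e = x)).card = 1) ∧
      (∀ i < k, ∀ x ∈ NR, (S.filter (fun e => c e = i ∧ r e = x)).card = 1) := by
  intro k
  induction k with
  | zero =>
    intro S hl hr hl2 hr2
    refine ⟨fun _ => 0, ?_, fun i hi => absurd hi (Nat.not_lt_zero i),
      fun i hi => absurd hi (Nat.not_lt_zero i)⟩
    intro e he
    have h1 := hl2 (l e) (hl e he)
    rw [Finset.card_eq_zero] at h1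
    exact absurd (Finset.mem_filter.2 ⟨he, rfl⟩ : e ∈ S.filter (fun e' => l e' = l e))
      (by rw [h1]; exact Finset.notMem_empty e)
  | succ k ih =>
    intro S hl hr hl2 hr2
    obtain ⟨M, hM, hM1, hM2⟩ := matching l r NL NR k S hl hr hl2 hr2
    have key : ∀ (f : A → L) (x : L), (S.filter (fun e => f e = x)).card = k + 1 →
        (M.filter (fun e => f e = x)).card = 1 →
        ((S \ M).filter (fun e => f e = x)).card = k := by
      intro f x h1 h2
      have h3 : (S \ M).filter (fun e => f e = x) =
          S.filter (fun e => f e = x) \ M.filter (fun e => f e = x) := by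
        ext e
        simp only [Finset.mem_filter, Finset.mem_sdiff]
        tauto
      rw [h3, Finset.card_sdiff_of_subset (Finset.filter_subset_filter _ hM), h1, h2]
      rfl
    obtain ⟨c, hc1, hc2, hc3⟩ := ih (S \ M) (fun e he => hl e (Finset.mem_sdiff.1 he).1)
      (fun e he => hr e (Finset.mem_sdiff.1 he).1)
      (fun x hx => key l x (hl2 x hx) (hM1 x hx)) (fun x hx => key r x (hr2 x hx) (hM2 x hx))
    have hfin : ∀ (f : A → L) (N : Finset L), (∀ x ∈ N, (M.filter (fun e => f e = x)).card = 1) →
        (∀ i < k, ∀ x ∈ N, ((S \ M).filter (fun e => c e = i ∧ f e = x)).card = 1) →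
        ∀ i < k + 1, ∀ x ∈ N,
          (S.filter (fun e => (if e ∈ M then k else c e) = i ∧ f e = x)).card = 1 := by
      intro f N h1 h2 i hi x hx
      rcases Nat.lt_succ_iff_lt_or_eq.1 hi with hi | rfl
      · rw [← h2 i hi x hx]
        congr 1
        ext e
        simp only [Finset.mem_filter, Finset.mem_sdiff]
        by_cases he : e ∈ M
        · simp only [if_pos he]
          constructor
          · rintro ⟨_, h3, _⟩
            omega
          · rintro ⟨⟨_, h3⟩, _⟩
            exact absurd he h3
        · simp only [if_neg he]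
          tauto
      · rw [← h1 x hx]
        congr 1
        ext e
        simp only [Finset.mem_filter]
        by_cases he : e ∈ M
        · have h5 : e ∈ S := hM he
          simp [he, h5]
        · constructor
          · rintro ⟨h3, h4, _⟩
            rw [if_neg he] at h4
            have := hc1 e (Finset.mem_sdiff.2 ⟨h3, he⟩)
            omega
          · rintro ⟨h3, _⟩
            exact absurd h3 he
    refine ⟨fun e => if e ∈ M then k else c e, ?_, hfin l NL hM1 hc2, hfin r NR hM2 hc3⟩
    intro e he
    by_cases h : e ∈ M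
    · simp [h]
    · simp only [if_neg h]
      have := hc1 e (Finset.mem_sdiff.2 ⟨he, h⟩)
      omega

end Pool.Agent.H.MP_3adc02_co.Kt
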