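import Pool.Agent.H.MP_3adc02_co.kt.Core

/-! The splitting theorem for a finite preorder. -/

namespace Pool.Agent.H.MP_3adc02_co.Kt

open Finset

open scoped Classical in
theorem hall_check {E V : Type*} [Fintype E] [Fintype V] (R : V → V → Prop)
    (tail head : E → V) (hth : ∀ e, R (tail e) (head e))
    (k : ℕ) (u0 v0 : V)
    (hJ : ∀ X : Finset V, X.Nonempty → X ≠ univ → (∀ u v, R u v → v ∈ X → u ∈ X) →
      k ≤ (univ.filter (fun e => tail e ∈ X ∧ head e ∉ X)).card)
    (A B : Finset E) (hA : A.card = k) (hB : B.card = k)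
    (hA2 : ∀ e ∈ A, R u0 (tail e)) (hB2 : ∀ e ∈ B, R (head e) v0)
    (Y : V → Prop) (hY : ∀ u v, R u v → Y u → Y v) :
    (univ.filter (fun e => e ∉ A ∧ Y (tail e))).card ≤
      (univ.filter (fun e => e ∉ B ∧ Y (head e))).card := by
  have h1 : (univ.filter (fun e => Y (head e))).card =
      (univ.filter (fun e => Y (tail e))).card +
        (univ.filter (fun e => ¬ Y (tail e) ∧ Y (head e))).card := by
    rw [← Finset.card_filter_add_card_filter_not (s := univ.filter (fun e => Y (head e)))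
      (fun e => Y (tail e)), Finset.filter_filter, Finset.filter_filter]
    congr 2
    · ext e
      simp only [Finset.mem_filter, Finset.mem_univ, true_and]
      exact ⟨fun h => h.2, fun h => ⟨hY _ _ (hth e) h, h⟩⟩
    · ext e
      simp only [Finset.mem_filter, Finset.mem_univ, true_and]
      exact and_comm
  have h2 : (univ.filter (fun e => e ∉ A ∧ Y (tail e))).card +
      (A.filter (fun e => Y (tail e))).card = (univ.filter (fun e => Y (tail e))).card := by
    rw [← Finset.card_filter_add_card_filter_not (s := univ.filter (fun e => Y (tail e)))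
      (fun e => e ∉ A), Finset.filter_filter, Finset.filter_filter]
    congr 2
    · ext e
      simp only [Finset.mem_filter, Finset.mem_univ, true_and]
      exact and_comm
    · ext e
      simp only [Finset.mem_filter, Finset.mem_univ, true_and, not_not]
      exact and_comm
  have h3 : (univ.filter (fun e => e ∉ B ∧ Y (head e))).card +
      (B.filter (fun e => Y (head e))).card = (univ.filter (fun e => Y (head e))).card := by
    rw [← Finset.card_filter_add_card_filter_not (s := univ.filter (fun e => Y (head e)))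
      (fun e => e ∉ B), Finset.filter_filter, Finset.filter_filter]
    congr 2
    · ext e
      simp only [Finset.mem_filter, Finset.mem_univ, true_and]
      exact and_comm
    · ext e
      simp only [Finset.mem_filter, Finset.mem_univ, true_and, not_not]
      exact and_comm
  have h4 : (B.filter (fun e => Y (head e))).card ≤ k := by
    rw [← hB]
    exact Finset.card_le_card (Finset.filter_subset _ _)
  by_cases hu : Y u0
  · have h5 : (A.filter (fun e => Y (tail e))).card = k := by
      rw [Finset.filter_true_of_mem (fun e he => hY _ _ (hA2 e he) hu), hA]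
    omega
  · by_cases hv : Y v0
    · have h6 := hJ (univ.filter (fun v => ¬ Y v)) ⟨u0, by simp [hu]⟩
        (fun h => by
          have h7 : v0 ∈ univ.filter (fun v => ¬ Y v) := by
            rw [h]
            exact Finset.mem_univ _
          exact (Finset.mem_filter.1 h7).2 hv)
        (fun u v huv hvX => by
          rw [Finset.mem_filter] at hvX ⊢
          exact ⟨Finset.mem_univ _, fun h => hvX.2 (hY _ _ huv h)⟩)
      simp only [Finset.mem_filter, Finset.mem_univ, true_and, not_not] at h6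
      omega
    · have h5 : (B.filter (fun e => Y (head e))).card = 0 := by
        rw [Finset.card_eq_zero, Finset.filter_eq_empty_iff]
        intro e he h7
        exact hv (hY _ _ (hB2 e he) h7)
      omega

open scoped Classical in
/-- The special sets of arcs at the vertices. -/
theorem special {E V : Type*} [Fintype E] (p : E → V) (k : ℕ) (good : V → Prop)
    (P : V → E → Prop)
    (h1 : ∀ u, good u → k ≤ (univ.filter (fun e => p e = u ∧ P u e)).card) :
    ∃ S : V → Finset E, (∀ u, ∀ e ∈ S u, p e = u) ∧ (∀ u, (S u).card ≤ k) ∧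
      ∀ u, good u → (S u).card = k ∧ ∀ e ∈ S u, P u e := by
  have h2 : ∀ u, ∃ S : Finset E, (∀ e ∈ S, p e = u) ∧ S.card ≤ k ∧
      (good u → S.card = k ∧ ∀ e ∈ S, P u e) := by
    intro u
    by_cases hu : good u
    · obtain ⟨S, hS1, hS2⟩ := Finset.exists_subset_card_eq (h1 u hu)
      exact ⟨S, fun e he => (Finset.mem_filter.1 (hS1 he)).2.1, hS2.le,
        fun _ => ⟨hS2, fun e he => (Finset.mem_filter.1 (hS1 he)).2.2⟩⟩
    · exact ⟨∅, by simp, by simp, fun h => absurd h hu⟩
  choose S hS1 hS2 hS3 using h2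
  exact ⟨S, hS1, hS2, hS3⟩

open scoped Classical in
theorem sum_classes {E V : Type*} [Fintype E] [Fintype V] (c c' : E → ℕ) (f g : E → V) (i : ℕ)
    (cl : V → V)
    (h1 : ∀ v, (univ.filter (fun e => c e = i ∧ cl (f e) = v)).card =
      (univ.filter (fun e => c' e = i ∧ cl (g e) = v)).card)
    (X : Finset V) (hX : ∀ v, cl v ∈ X ↔ v ∈ X) :
    (univ.filter (fun e => c e = i ∧ f e ∈ X)).card =
      (univ.filter (fun e => c' e = i ∧ g e ∈ X)).card := by
  have h2 : ∀ (c : E → ℕ) (f : E → V), (univ.filter (fun e => c e = i ∧ f e ∈ X)).card =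
      ∑ v ∈ X, (univ.filter (fun e => c e = i ∧ cl (f e) = v)).card := by
    intro c f
    have hmt : ∀ e ∈ univ.filter (fun e => c e = i ∧ f e ∈ X), cl (f e) ∈ X :=
      fun e he => (hX _).2 (Finset.mem_filter.1 he).2.2
    rw [Finset.card_eq_sum_card_fiberwise hmt]
    apply Finset.sum_congr rfl
    intro v hv
    rw [Finset.filter_filter]
    congr 1
    ext e
    simp only [Finset.mem_filter, Finset.mem_univ, true_and]
    constructor
    · rintro ⟨⟨h3, h4⟩, h5⟩
      exact ⟨h3, h5⟩
    · rintro ⟨h3, h5⟩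
      exact ⟨⟨h3, (hX _).1 (h5 ▸ hv)⟩, h5⟩
  rw [h2, h2]
  exact Finset.sum_congr rfl (fun v _ => h1 v)

open scoped Classical in
theorem core {E V : Type*} [Fintype E] [Fintype V] (R : V → V → Prop) (hr : ∀ v, R v v)
    (htr : ∀ u v w, R u v → R v w → R u w) (cl : V → V)
    (hcl1 : ∀ v, R v (cl v)) (hcl2 : ∀ v, R (cl v) v)
    (hcl3 : ∀ u v, R u v → R v u → cl u = cl v)
    (tail head : E → V) (hth : ∀ e, R (tail e) (head e)) (k : ℕ) (hk : 0 < k)
    (hJ : ∀ X : Finset V, X.Nonempty → X ≠ univ → (∀ u v, R u v → v ∈ X → u ∈ X) →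
      k ≤ (univ.filter (fun e => tail e ∈ X ∧ head e ∉ X)).card)
    (s0 t0 : V)
    (ha : ∀ u, (∀ w, R w u → R u w) →
      k ≤ (univ.filter (fun e => R (tail e) u ∧ R s0 (head e))).card)
    (hb : ∀ u, (∀ w, R u w → R w u) →
      k ≤ (univ.filter (fun e => R u (head e) ∧ R (tail e) t0)).card) :
    ∃ c : E → ℕ, (∀ e, c e < k) ∧ ∀ i < k, ∀ X : Finset V, X.Nonempty → X ≠ univ →
      (∀ u v, R u v → v ∈ X → u ∈ X) → ∃ e, c e = i ∧ tail e ∈ X ∧ head e ∉ X := by
  have hclcl : ∀ v, cl (cl v) = cl v := fun v => hcl3 _ _ (hcl2 v) (hcl1 v)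
  have hclR : ∀ u v, cl u = cl v → R u v := fun u v h =>
    htr _ _ _ (hcl1 u) (h ▸ hcl2 v)
  -- representatives of source and sink components
  have hmin : ∀ x, ∃ u, R u x ∧ (∀ w, R w u → R u w) ∧ cl u = u := by
    intro x
    obtain ⟨u, hu1, hu2⟩ := exists_min R hr htr x
    exact ⟨cl u, htr _ _ _ (hcl2 u) hu1,
      fun w hw => htr _ _ _ (hcl2 u) (hu2 w (htr _ _ _ hw (hcl2 u))), hclcl u⟩
  have hmax : ∀ x, ∃ u, R x u ∧ (∀ w, R u w → R w u) ∧ cl u = u := by
    intro x
    obtain ⟨u, hu1, hu2⟩ := exists_min (fun a b => R b a) hr (fun a b c h1 h2 => htr _ _ _ h2 h1) x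
    exact ⟨cl u, htr _ _ _ hu1 (hcl1 u),
      fun w hw => htr _ _ _ (hu2 w (htr _ _ _ (hcl1 u) hw)) (hcl1 u), hclcl u⟩
  obtain ⟨u0, hu1, hu2, hu3⟩ := hmin s0
  obtain ⟨v0, hv1, hv2, hv3⟩ := hmax t0
  obtain ⟨sT, hT1, hT2, hT3⟩ := special (fun e => cl (tail e)) k
    (fun u => (∀ w, R w u → R u w) ∧ cl u = u) (fun u e => R s0 (head e)) (fun u hu => by
      refine (ha u hu.1).trans (Finset.card_le_card ?_)
      intro e he
      rw [Finset.mem_filter] at he ⊢
      refine ⟨he.1, ?_, he.2.2⟩
      rw [hcl3 _ _ he.2.1 (hu.1 _ he.2.1), hu.2])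
  obtain ⟨sH, hH1, hH2, hH3⟩ := special (fun e => cl (head e)) k
    (fun u => (∀ w, R u w → R w u) ∧ cl u = u) (fun u e => R (tail e) t0) (fun u hu => by
      refine (hb u hu.1).trans (Finset.card_le_card ?_)
      intro e he
      rw [Finset.mem_filter] at he ⊢
      refine ⟨he.1, ?_, he.2.2⟩
      rw [← hcl3 _ _ he.2.1 (hu.1 _ he.2.1), hu.2])
  have hA := (hT3 u0 ⟨hu2, hu3⟩).1
  have hB := (hH3 v0 ⟨hv2, hv3⟩).1
  have hA2 : ∀ e ∈ sT u0, cl (tail e) = cl u0 := fun e he => by rw [hT1 u0 e he, hu3]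
  have hB2 : ∀ e ∈ sH v0, cl (head e) = cl v0 := fun e he => by rw [hH1 v0 e he, hv3]
  obtain ⟨p, hp1, hp2, hp3⟩ := hallK R hr htr tail head (sT u0) (sH v0) (hA.trans hB.symm)
    (fun Y hY => hall_check R tail head hth k u0 v0 hJ (sT u0) (sH v0) hA hB
      (fun e he => hclR _ _ (hA2 e he).symm) (fun e he => hclR _ _ (hB2 e he)) Y hY)
  obtain ⟨cF, cK, hF, hK, h1, h2, h3, h4, h5⟩ := col (fun e => cl (tail e)) (fun e => cl (head e))
    (fun e => cl (head (p e)))
    (fun v => by
      symm
      apply Finset.card_bij (fun e _ => p e)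
      · intro e he
        rw [Finset.mem_filter] at he ⊢
        exact ⟨Finset.mem_univ _, he.2⟩
      · intro a _ b _ hab
        exact hp1.1 hab
      · intro e he
        obtain ⟨e', rfl⟩ := hp1.2 e
        rw [Finset.mem_filter] at he
        exact ⟨e', Finset.mem_filter.2 ⟨Finset.mem_univ _, he.2⟩, rfl⟩)
    k hk sT sH (fun v => if v = u0 then sT u0 else ∅) hT1 hT2 hH1 hH2
    (fun v e he => by
      by_cases hv : v = u0
      · rw [if_pos hv] at he
        rw [hv]
        exact hT1 u0 e he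
      · rw [if_neg hv] at he
        simp at he)
    (fun v => by
      by_cases hv : v = u0
      · rw [if_pos hv]
        exact hT2 u0
      · rw [if_neg hv]
        simp)
  have h5' : Set.InjOn cK (sT u0 : Set E) := by
    have h6 := h5 u0
    rw [if_pos rfl] at h6
    exact h6
  refine ⟨cF, hF, fun i hi X hX1 hX2 hX3 => ?_⟩
  have hXcl : ∀ v, cl v ∈ X ↔ v ∈ X := fun v => ⟨hX3 _ _ (hcl1 v), hX3 _ _ (hcl2 v)⟩
  by_cases hu : u0 ∈ X
  · by_cases hv : v0 ∈ X
    · -- a sink component outside
      obtain ⟨x, hx⟩ : ∃ x, x ∉ X := by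
        by_contra hno
        push Not at hno
        exact hX2 (Finset.eq_univ_iff_forall.2 hno)
      obtain ⟨u, hxu, hmu, hcu⟩ := hmax x
      obtain ⟨hc, hS⟩ := hH3 u ⟨hmu, hcu⟩
      obtain ⟨e, he, hei⟩ := all_colours (sH u) k hc cF hF (h4 u) i hi
      refine ⟨e, hei, hX3 _ _ (htr _ _ _ (hS e he) hv1) hv, ?_⟩
      intro h6
      have h7 : u ∈ X := by
        rw [← hXcl, hH1 u e he] at h6
        exact h6
      exact hx (hX3 _ _ hxu h7)
    · -- the main case
      by_contra hno
      push Not at hno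
      have h6 := sum_classes cF cK tail tail i cl (h1 i hi) X hXcl
      have h7 := sum_classes cF cK head (fun e => head (p e)) i cl (h2 i hi) X hXcl
      have h8 : (univ.filter (fun e => cF e = i ∧ tail e ∈ X)).card ≤
          (univ.filter (fun e => cF e = i ∧ head e ∈ X)).card := by
        apply Finset.card_le_card
        intro e he
        rw [Finset.mem_filter] at he ⊢
        exact ⟨he.1, he.2.1, hno e he.2.1 he.2.2⟩
      obtain ⟨e, he, hei⟩ := all_colours (sT u0) k hA cK hK h5' i hi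
      have h9 : (univ.filter (fun e => cK e = i ∧ head (p e) ∈ X)) ⊂
          univ.filter (fun e => cK e = i ∧ tail e ∈ X) := by
        rw [Finset.ssubset_iff_of_subset]
        · refine ⟨e, Finset.mem_filter.2 ⟨Finset.mem_univ _, hei, ?_⟩, fun h10 => ?_⟩
          · exact hX3 _ _ (hclR _ _ (hA2 e he)) hu
          · have h11 := (Finset.mem_filter.1 h10).2.2
            exact hv (hX3 _ _ (hclR _ _ (hB2 _ (hp2 e he)).symm) h11)
        · intro a ha'
          rw [Finset.mem_filter] at ha' ⊢
          refine ⟨ha'.1, ha'.2.1, ?_⟩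
          by_cases haA : a ∈ sT u0
          · exact absurd (hX3 _ _ (hclR _ _ (hB2 _ (hp2 a haA)).symm) ha'.2.2) hv
          · exact hX3 _ _ (hp3 a haA) ha'.2.2
      have h10 := Finset.card_lt_card h9
      omega
  · -- a source component inside
    obtain ⟨x, hx⟩ := hX1
    obtain ⟨u, hxu, hmu, hcu⟩ := hmin x
    obtain ⟨hc, hS⟩ := hT3 u ⟨hmu, hcu⟩
    obtain ⟨e, he, hei⟩ := all_colours (sT u) k hc cF hF (h3 u) i hi
    refine ⟨e, hei, ?_, fun h6 => hu (hX3 _ _ (htr _ _ _ hu1 (hS e he)) h6)⟩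
    rw [← hXcl, hT1 u e he]
    exact hX3 _ _ hxu hx

end Pool.Agent.H.MP_3adc02_co.Kt
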